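import Mathlib

/-!
# Matrices omitting a submatrix

If a Boolean matrix `F` does not contain every `a × b` Boolean matrix as a submatrix, then
the number of its distinct rows is polynomial in its rank, over every field.
-/

set_option autoImplicit false
set_option linter.unusedSectionVars false
set_option linter.unusedSimpArgs false

namespace Pool.TH697.LogRank

open Finset

variable {X Y : Type} [Fintype X] [Fintype Y] [DecidableEq X] [DecidableEq Y]

/-- The `0/1` matrix of `F` over `K`. -/
def mat (K : Type) [Field K] (F : X → Y → Bool) : Matrix X Y K :=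
  Matrix.of fun x y => if F x y then (1 : K) else 0

/-- `F` contains the pattern `P` as a submatrix. -/
def Contains (F : X → Y → Bool) {a b : ℕ} (P : Fin a → Fin b → Bool) : Prop :=
  ∃ (f : Fin a ↪ X) (g : Fin b ↪ Y), ∀ i j, F (f i) (g j) = P i j

/-- A set of `rank` columns on which all rows that agree are equal. -/
theorem exists_columns (K : Type) [Field K] (F : X → Y → Bool) :
    ∃ J : Finset Y, J.card = (mat K F).rank ∧
      ∀ x x', (∀ j ∈ J, F x j = F x' j) → ∀ y, F x y = F x' y := by
  classical
  obtain ⟨b, hb, hspan, hli⟩ := exists_linearIndependent K (Set.range (mat K F).col)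
  have hfin : b.Finite := (Set.finite_range _).subset hb
  have : Fintype b := hfin.fintype
  choose pre hpre using fun v : b => hb v.2
  have hinj : Function.Injective pre := by
    intro v w h
    apply Subtype.ext
    rw [← hpre v, ← hpre w, h]
  refine ⟨Finset.univ.image pre, ?_, ?_⟩
  · rw [Finset.card_image_of_injective _ hinj, Finset.card_univ,
      Matrix.rank_eq_finrank_span_cols, ← hspan]
    have h1 := finrank_span_set_eq_card (R := K) (s := b) hli
    rw [h1, Set.toFinset_card]
  · intro x x' hx y
    have hmem : (mat K F).col y ∈ Submodule.span K b := by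
      rw [hspan]
      exact Submodule.subset_span ⟨y, rfl⟩
    have hall : ∀ v ∈ Submodule.span K b, v x = v x' := by
      intro v hv
      induction hv using Submodule.span_induction with
      | mem v hv =>
        have h1 := hx (pre ⟨v, hv⟩) (Finset.mem_image_of_mem _ (mem_univ _))
        have h2 := hpre ⟨v, hv⟩
        simp only at h2
        rw [← h2]
        simp only [Matrix.col, mat, Matrix.transpose_apply, Matrix.of_apply, h1]
      | zero => rfl
      | add u v _ _ hu hv => rw [Pi.add_apply, Pi.add_apply, hu, hv]
      | smul c v _ hv => rw [Pi.smul_apply, Pi.smul_apply, hv]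
    have h3 := hall _ hmem
    simp only [Matrix.col, mat, Matrix.transpose_apply, Matrix.of_apply] at h3
    by_cases h4 : F x y = true
    · by_cases h5 : F x' y = true
      · rw [h4, h5]
      · rw [if_pos h4, if_neg h5] at h3
        exact absurd h3 one_ne_zero
    · by_cases h5 : F x' y = true
      · rw [if_neg h4, if_pos h5] at h3
        exact absurd h3 zero_ne_one
      · rw [Bool.not_eq_true] at h4 h5
        rw [h4, h5]

/-- The traces of the rows on a set of columns. -/
def traces (F : X → Y → Bool) (J : Finset Y) : Finset (Finset J) :=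
  Finset.univ.image fun x => Finset.univ.filter fun j : J => F x j = true

/-- The columns `g` are shattered by the rows. -/
def Shattered (F : X → Y → Bool) {m : ℕ} (g : Fin m ↪ Y) : Prop :=
  ∀ v : Fin m → Bool, ∃ x, ∀ j, F x (g j) = v j

theorem contains_of_shattered (F : X → Y → Bool) {a b : ℕ}
    {g : Fin (b + Nat.clog 2 a) ↪ Y} (hg : Shattered F g)
    (P : Fin a → Fin b → Bool) : Contains F P := by
  classical
  obtain ⟨code⟩ : Nonempty (Fin a ↪ (Fin (Nat.clog 2 a) → Bool)) := by
    apply Function.Embedding.nonempty_of_card_le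
    simp only [Fintype.card_fin, Fintype.card_pi, Fintype.card_bool, Finset.prod_const,
      Finset.card_univ]
    exact Nat.le_pow_clog one_lt_two a
  choose r hr using fun i : Fin a => hg (Fin.append (P i) (code i))
  refine ⟨⟨r, ?_⟩, ⟨fun p => g (Fin.castAdd _ p), ?_⟩, ?_⟩
  · intro i i' h
    apply code.injective
    funext q
    have h1 := hr i (Fin.natAdd _ q)
    have h2 := hr i' (Fin.natAdd _ q)
    rw [Fin.append_right] at h1 h2
    rw [← h1, ← h2, h]
  · intro p p' h
    exact Fin.castAdd_injective _ _ (g.injective h)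
  · intro i p
    have h1 := hr i (Fin.castAdd _ p)
    rw [Fin.append_left] at h1
    exact h1

theorem sum_choose_le (r m : ℕ) : ∑ k ∈ Finset.Iic m, r.choose k ≤ (r + 1) ^ m := by
  induction m with
  | zero =>
    have : Finset.Iic 0 = ({0} : Finset ℕ) := by
      ext k
      simp
    rw [this]
    simp
  | succ m ih =>
    have : Finset.Iic (m + 1) = insert (m + 1) (Finset.Iic m) := by
      ext k
      simp only [Finset.mem_Iic, Finset.mem_insert]
      omega
    rw [this, Finset.sum_insert (by simp)]
    have h1 : r.choose (m + 1) ≤ r * (r + 1) ^ m := by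
      refine (Nat.choose_le_pow r (m + 1)).trans ?_
      rw [pow_succ, mul_comm]
      exact Nat.mul_le_mul_left _ (Nat.pow_le_pow_left (Nat.le_succ r) m)
    calc r.choose (m + 1) + ∑ k ∈ Finset.Iic m, r.choose k
        ≤ r * (r + 1) ^ m + (r + 1) ^ m := Nat.add_le_add h1 ih
      _ = (r + 1) ^ (m + 1) := by ring

/-- The number of traces is polynomial if no `D + 1` columns are shattered. -/
theorem card_traces_le (F : X → Y → Bool) (J : Finset Y) {D : ℕ}
    (hD : ∀ g : Fin (D + 1) ↪ Y, ¬ Shattered F g) :
    (traces F J).card ≤ (J.card + 1) ^ D := by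
  classical
  have hvc : (traces F J).vcDim ≤ D := by
    unfold Finset.vcDim
    refine Finset.sup_le fun S hS => ?_
    by_contra hlt
    push Not at hlt
    obtain ⟨S', hS', hc⟩ := Finset.exists_subset_card_eq (Nat.succ_le_of_lt hlt)
    rw [Finset.mem_shatterer] at hS
    have hsh := hS.mono_right hS'
    have e : Fin (D + 1) ≃ S' := Fintype.equivOfCardEq (by simp [hc])
    refine hD ⟨fun i => (e i).1.1, ?_⟩ ?_
    · intro i i' h
      exact e.injective (Subtype.ext (Subtype.ext h))
    · intro v
      obtain ⟨u, hu, hus⟩ := hsh (t := S'.filter fun j => if h : j ∈ S' then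
        v (e.symm ⟨j, h⟩) = true else False) (Finset.filter_subset _ _)
      obtain ⟨x, -, rfl⟩ := Finset.mem_image.1 hu
      refine ⟨x, fun i => ?_⟩
      have h1 := Finset.ext_iff.1 hus (e i).1
      simp only [mem_inter, mem_filter, mem_univ, true_and, (e i).2, dif_pos,
        Subtype.coe_eta, Equiv.symm_apply_apply] at h1
      exact Bool.eq_iff_iff.2 h1
  refine (Finset.card_le_card_shatterer _).trans ?_
  refine Finset.card_shatterer_le_sum_vcDim.trans ?_
  rw [Fintype.card_coe]
  refine le_trans ?_ (sum_choose_le J.card D)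
  exact Finset.sum_le_sum_of_subset (Finset.Iic_subset_Iic.2 hvc)

/-- The transcript of a protocol with rules `owner`, `α`, `β` after `c` bits. -/
def run (owner : List Bool → Bool) (α : List Bool → X → Bool) (β : List Bool → Y → Bool)
    (x : X) (y : Y) (c : ℕ) : List Bool :=
  Nat.iterate (fun t : List Bool => t ++ [if owner t then α t x else β t y]) c []

/-- If the rows fall into `R` classes, `clog R + 1` bits suffice. -/
theorem exists_protocol (F : X → Y → Bool) (R : ℕ) (idx : X → Fin R)
    (hidx : ∀ x x', idx x = idx x' → ∀ y, F x y = F x' y) :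
    ∃ (owner : List Bool → Bool) (α : List Bool → X → Bool) (β : List Bool → Y → Bool)
      (out : List Bool → Bool), ∀ x y, out (run owner α β x y (Nat.clog 2 R + 1)) = F x y := by
  classical
  set k := Nat.clog 2 R with hk
  set bits : X → ℕ → List Bool := fun x l => (List.range l).map fun i => (idx x).1.testBit i
    with hbits
  refine ⟨fun t => decide (t.length < k), fun t x => (idx x).1.testBit t.length,
    fun t y => decide (∃ x, bits x k = t ∧ F x y = true), fun t => t.getLastD false, ?_⟩
  intro x y
  have hrun : ∀ l, l ≤ k → run (fun t => decide (t.length < k))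
      (fun t x => (idx x).1.testBit t.length)
      (fun t y => decide (∃ x, bits x k = t ∧ F x y = true)) x y l = bits x l := by
    intro l
    induction l with
    | zero => intro _; rfl
    | succ l ih =>
      intro hl
      have h1 := ih (by omega)
      unfold run at h1 ⊢
      rw [Function.iterate_succ_apply', h1]
      have hlen : (bits x l).length = l := by simp [hbits]
      simp only [hlen]
      rw [if_pos (by simpa using hl)]
      simp [hbits, List.range_succ]
  have hlast : run (fun t => decide (t.length < k))
      (fun t x => (idx x).1.testBit t.length)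
      (fun t y => decide (∃ x, bits x k = t ∧ F x y = true)) x y (k + 1)
      = bits x k ++ [decide (∃ x', bits x' k = bits x k ∧ F x' y = true)] := by
    have h1 := hrun k le_rfl
    unfold run at h1 ⊢
    rw [Function.iterate_succ_apply', h1]
    have hlen : (bits x k).length = k := by simp [hbits]
    simp only [hlen]
    rw [if_neg (by simp)]
  simp only
  rw [hlast]
  rw [List.getLastD_concat]
  have hsame : ∀ x', bits x' k = bits x k → idx x' = idx x := by
    intro x' h
    apply Fin.ext
    apply Nat.eq_of_testBit_eq
    intro i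
    by_cases hi : i < k
    · have h1 : (bits x' k)[i]? = (bits x k)[i]? := by rw [h]
      simpa [hbits, hi] using h1
    · have hlt : ∀ z : Fin R, z.1 < 2 ^ i := fun z =>
        lt_of_lt_of_le (lt_of_lt_of_le z.2 (Nat.le_pow_clog one_lt_two R))
          (Nat.pow_le_pow_right (by norm_num) (by omega))
      rw [Nat.testBit_lt_two_pow (hlt _), Nat.testBit_lt_two_pow (hlt _)]
  by_cases hF : F x y = true
  · rw [hF]
    exact decide_eq_true ⟨x, rfl, hF⟩
  · rw [Bool.not_eq_true] at hF
    rw [hF]
    apply decide_eq_false
    rintro ⟨x', h1, h2⟩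
    rw [hidx x' x (hsame x' h1) y, hF] at h2
    exact absurd h2 (by simp)

/-- If no `D + 1` columns are shattered, `D log (rank + 1) + 2` bits suffice. -/
theorem protocol_of_vc (K : Type) [Field K] (F : X → Y → Bool) {D : ℕ}
    (hD : ∀ g : Fin (D + 1) ↪ Y, ¬ Shattered F g) :
    ∃ c : ℕ, ∃ (owner : List Bool → Bool) (α : List Bool → X → Bool)
      (β : List Bool → Y → Bool) (out : List Bool → Bool),
      (∀ x y, out (run owner α β x y c) = F x y) ∧
      (c : ℝ) ≤ (D : ℝ) * Real.logb 2 ((mat K F).rank + 1) + 2 := by
  classical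
  obtain ⟨J, hJ, hrows⟩ := exists_columns K F
  set 𝒜 := traces F J with h𝒜
  have hmem : ∀ x, (Finset.univ.filter fun j : J => F x j = true) ∈ 𝒜 :=
    fun x => Finset.mem_image_of_mem _ (mem_univ x)
  set idx : X → Fin 𝒜.card := fun x => 𝒜.equivFin ⟨_, hmem x⟩ with hidx
  obtain ⟨owner, α, β, out, hout⟩ := exists_protocol F 𝒜.card idx (by
    intro x x' h y
    have h1 := 𝒜.equivFin.injective h
    have h2 := congrArg Subtype.val h1
    simp only at h2
    refine hrows x x' ?_ y
    intro j hj
    have h3 := Finset.ext_iff.1 h2 ⟨j, hj⟩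
    simp only [mem_filter, mem_univ, true_and] at h3
    exact Bool.eq_iff_iff.2 h3)
  refine ⟨Nat.clog 2 𝒜.card + 1, owner, α, β, out, hout, ?_⟩
  have hcard := card_traces_le F J hD
  rw [hJ, ← h𝒜] at hcard
  set r := (mat K F).rank with hr
  have hr1 : (1 : ℝ) ≤ (r : ℝ) + 1 := by
    have : (0 : ℝ) ≤ r := Nat.cast_nonneg r
    linarith
  have hlog0 : 0 ≤ Real.logb 2 ((r : ℝ) + 1) := Real.logb_nonneg one_lt_two hr1
  have hclog : (Nat.clog 2 𝒜.card : ℝ) ≤ D * Real.logb 2 ((r : ℝ) + 1) + 1 := by
    by_cases h1 : 1 < 𝒜.card
    · have h2 := Nat.pow_pred_clog_lt_self one_lt_two h1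
      have h3 : 0 < Nat.clog 2 𝒜.card := Nat.clog_pos one_lt_two h1
      have h4 : ((2 : ℝ) ^ (Nat.clog 2 𝒜.card).pred) ≤ ((r : ℝ) + 1) ^ D := by
        have h5 : 2 ^ (Nat.clog 2 𝒜.card).pred ≤ (r + 1) ^ D := h2.le.trans hcard
        exact_mod_cast h5
      have h6 := Real.logb_le_logb_of_le one_lt_two (by positivity) h4
      rw [Real.logb_pow, Real.logb_pow, Real.logb_self_eq_one one_lt_two, mul_one] at h6
      have h7 : ((Nat.clog 2 𝒜.card).pred : ℝ) = (Nat.clog 2 𝒜.card : ℝ) - 1 := by
        have : (Nat.clog 2 𝒜.card).pred + 1 = Nat.clog 2 𝒜.card := Nat.succ_pred_eq_of_pos h3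
        have h8 : (((Nat.clog 2 𝒜.card).pred + 1 : ℕ) : ℝ) = (Nat.clog 2 𝒜.card : ℝ) := by
          rw [this]
        push_cast at h8
        linarith
      rw [h7] at h6
      linarith
    · have h2 : Nat.clog 2 𝒜.card = 0 := Nat.clog_of_right_le_one (not_lt.1 h1) 2
      rw [h2]
      have : (0 : ℝ) ≤ D := Nat.cast_nonneg D
      have := mul_nonneg this hlog0
      push_cast
      linarith
  push_cast
  linarith

/-- An omitted pattern bounds the number of shattered columns. -/
theorem not_shattered_of_omits (F : X → Y → Bool) {a b : ℕ} {P : Fin a → Fin b → Bool}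
    (hP : ¬ Contains F P) (g : Fin (b + Nat.clog 2 a + 1) ↪ Y) : ¬ Shattered F g := by
  intro hg
  refine hP (contains_of_shattered F (g := Fin.castSuccEmb.trans g) ?_ P)
  intro v
  obtain ⟨x, hx⟩ := hg (Fin.snoc v false)
  refine ⟨x, fun j => ?_⟩
  have := hx (Fin.castSucc j)
  simpa using this

end Pool.TH697.LogRank
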